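import Pool.Agent.N993.WX.Stm

/-!
# PROJECT WX, task UNIF: the law of the reduced word is uniform on spheres
-/

set_option autoImplicit false

namespace Pool.Agent.N297.WX

open Finset
open Pool.Agent.N993.WT (RW)
open Pool.Agent.N993.WX

variable {n : ℕ}

/-- the number of words of length `l` with the reduction `v` -/
def cnt (Y : Finset (Fin n)) (l : ℕ) (v : List (Fin n × Bool)) : ℕ :=
  (univ.filter (fun u : Fin l → Fin n × Bool => red Y (List.ofFn u) = v)).card

/-- the values -/
def CC (M P : ℕ) : ℕ → ℕ → ℕ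
  | 0, 0 => 1
  | 0, _ + 1 => 0
  | l + 1, 0 => M * CC M P l 0 + P * CC M P l 1
  | l + 1, k + 1 => M * CC M P l (k + 1) + (CC M P l k + (P - 1) * CC M P l (k + 2))

theorem red_cons_notMem {Y : Finset (Fin n)} {z : Fin n × Bool} (hz : z.1 ∉ Y)
    (u : List (Fin n × Bool)) : red Y (z :: u) = red Y u := by
  unfold red
  rw [List.filter_cons_of_neg]
  simpa using hz

theorem red_cons_mem {Y : Finset (Fin n)} {z : Fin n × Bool} (hz : z.1 ∈ Y)
    (u v : List (Fin n × Bool)) (hv : FreeGroup.reduce v = v) :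
    red Y (z :: u) = v ↔ red Y u = FreeGroup.reduce ((z.1, !z.2) :: v) := by
  unfold red
  rw [List.filter_cons_of_pos (by simpa using hz)]
  obtain ⟨w, hw⟩ : ∃ w, w = u.filter (fun y => decide (y.1 ∈ Y)) := ⟨_, rfl⟩
  rw [← hw]
  have e1 : FreeGroup.mk (z :: w) = FreeGroup.mk [z] * FreeGroup.mk w := by
    rw [FreeGroup.mul_mk]
    rfl
  have e2 : FreeGroup.mk ((z.1, !z.2) :: v) = (FreeGroup.mk [z])⁻¹ * FreeGroup.mk v := by
    rw [FreeGroup.inv_mk, FreeGroup.mul_mk]
    rfl
  have e3 : (FreeGroup.reduce (z :: w) = v) ↔ FreeGroup.mk (z :: w) = FreeGroup.mk v := by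
    constructor
    · intro h
      exact FreeGroup.reduce.exact (h.trans hv.symm)
    · intro h
      exact (FreeGroup.reduce.sound h).trans hv
  have e4 : (FreeGroup.reduce w = FreeGroup.reduce ((z.1, !z.2) :: v)) ↔
      FreeGroup.mk w = FreeGroup.mk ((z.1, !z.2) :: v) :=
    ⟨fun h => FreeGroup.reduce.exact h, fun h => FreeGroup.reduce.sound h⟩
  rw [e3, e4, e1, e2, eq_inv_mul_iff_mul_eq]

theorem reduce_flip (z a : Fin n × Bool) (t : List (Fin n × Bool))
    (h : FreeGroup.reduce (a :: t) = a :: t) :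
    FreeGroup.reduce ((z.1, !z.2) :: a :: t) =
      if z = a then t else (z.1, !z.2) :: a :: t := by
  rw [FreeGroup.reduce.cons, h]
  by_cases hz : z = a
  · subst hz
    simp
  · rw [if_neg hz]
    have : ¬ (z.1 = a.1 ∧ (!z.2) = !a.2) := by
      rintro ⟨h1, h2⟩
      exact hz (Prod.ext h1 (Bool.not_inj h2))
    simp only [this, if_false]

theorem cnt_succ (Y : Finset (Fin n)) (l : ℕ) (v : List (Fin n × Bool)) :
    cnt Y (l + 1) v = ∑ z : Fin n × Bool,
      (univ.filter (fun u : Fin l → Fin n × Bool => red Y (z :: List.ofFn u) = v)).card := by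
  unfold cnt
  rw [card_filter, ← (Fin.consEquiv (fun _ => Fin n × Bool)).sum_comp, Fintype.sum_prod_type]
  refine sum_congr rfl fun z _ => ?_
  rw [card_filter]
  refine sum_congr rfl fun u _ => ?_
  have : List.ofFn ((Fin.consEquiv (fun _ : Fin (l + 1) => Fin n × Bool)) (z, u)) =
      z :: List.ofFn u := List.ofFn_cons z u
  rw [this]

theorem cnt_eq (Y : Finset (Fin n)) (l : ℕ) : ∀ v : List (Fin n × Bool),
    FreeGroup.reduce v = v → (∀ a ∈ v, a.1 ∈ Y) →
    cnt Y l v = CC (univ.filter (fun z : Fin n × Bool => ¬ z.1 ∈ Y)).card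
      (univ.filter (fun z : Fin n × Bool => z.1 ∈ Y)).card l v.length := by
  induction l with
  | zero =>
    intro v _ _
    unfold cnt
    have h0 : ∀ u : Fin 0 → Fin n × Bool, red Y (List.ofFn u) = [] := by
      intro u
      simp [red]
    cases v with
    | nil =>
      rw [filter_true_of_mem (fun u _ => h0 u)]
      simp [CC]
    | cons a t =>
      rw [filter_false_of_mem (fun u _ => by rw [h0 u]; simp)]
      simp [CC]
  | succ l ih =>
    intro v hv hY
    obtain ⟨M, hM⟩ : ∃ M, M = (univ.filter (fun z : Fin n × Bool => ¬ z.1 ∈ Y)).card := ⟨_, rfl⟩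
    obtain ⟨P, hP⟩ : ∃ P, P = (univ.filter (fun z : Fin n × Bool => z.1 ∈ Y)).card := ⟨_, rfl⟩
    rw [← hM, ← hP] at ih ⊢
    rw [cnt_succ, ← sum_filter_add_sum_filter_not univ (fun z : Fin n × Bool => ¬ z.1 ∈ Y)]
    have h1 : ∑ z ∈ univ.filter (fun z : Fin n × Bool => ¬ z.1 ∈ Y),
        (univ.filter (fun u : Fin l → Fin n × Bool => red Y (z :: List.ofFn u) = v)).card =
        M * CC M P l v.length := by
      rw [hM, ← smul_eq_mul, ← sum_const, ← hM]
      refine sum_congr rfl fun z hz => ?_
      rw [mem_filter] at hz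
      rw [← ih v hv hY]
      unfold cnt
      congr 1
      refine filter_congr fun u _ => ?_
      rw [red_cons_notMem hz.2]
    have h2 : ∀ z ∈ univ.filter (fun z : Fin n × Bool => ¬ ¬ z.1 ∈ Y),
        (univ.filter (fun u : Fin l → Fin n × Bool => red Y (z :: List.ofFn u) = v)).card =
        cnt Y l (FreeGroup.reduce ((z.1, !z.2) :: v)) := by
      intro z hz
      rw [mem_filter, not_not] at hz
      unfold cnt
      congr 1
      refine filter_congr fun u _ => ?_
      rw [red_cons_mem hz.2 _ _ hv]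
    rw [h1, sum_congr rfl h2]
    have h3 : univ.filter (fun z : Fin n × Bool => ¬ ¬ z.1 ∈ Y) =
        univ.filter (fun z : Fin n × Bool => z.1 ∈ Y) := filter_congr fun z _ => not_not
    rw [h3]
    cases v with
    | nil =>
      have h4 : ∀ z ∈ univ.filter (fun z : Fin n × Bool => z.1 ∈ Y),
          cnt Y l (FreeGroup.reduce ((z.1, !z.2) :: [])) = CC M P l 1 := by
        intro z hz
        rw [mem_filter] at hz
        have h5 : FreeGroup.reduce ((z.1, !z.2) :: []) = [(z.1, !z.2)] := by
          simp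
        rw [h5]
        refine ih _ h5 ?_
        intro a ha
        rw [List.mem_singleton] at ha
        subst ha
        exact hz.2
      rw [sum_congr rfl h4, sum_const, ← hP, smul_eq_mul]
      rfl
    | cons a t =>
      have ha : a ∈ univ.filter (fun z : Fin n × Bool => z.1 ∈ Y) :=
        mem_filter.2 ⟨mem_univ _, hY a (by simp)⟩
      have h4 : ∀ z ∈ univ.filter (fun z : Fin n × Bool => z.1 ∈ Y),
          cnt Y l (FreeGroup.reduce ((z.1, !z.2) :: a :: t)) =
            if z = a then CC M P l t.length else CC M P l (t.length + 2) := by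
        intro z hz
        rw [mem_filter] at hz
        have h6 : FreeGroup.reduce (FreeGroup.reduce ((z.1, !z.2) :: a :: t)) =
          FreeGroup.reduce ((z.1, !z.2) :: a :: t) := FreeGroup.reduce.idem
        rw [reduce_flip z a t hv] at h6 ⊢
        split_ifs at h6 ⊢ with hza
        · exact ih t h6 fun b hb => hY b (List.mem_cons_of_mem _ hb)
        · refine ih _ h6 ?_
          intro b hb
          rw [List.mem_cons] at hb
          rcases hb with hb | hb
          · subst hb
            exact hz.2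
          · exact hY b hb
      rw [sum_congr rfl h4, ← add_sum_erase _ _ ha, if_pos rfl]
      have h7 : ∑ z ∈ (univ.filter (fun z : Fin n × Bool => z.1 ∈ Y)).erase a,
          (if z = a then CC M P l t.length else CC M P l (t.length + 2)) =
          (P - 1) * CC M P l (t.length + 2) := by
        have h8 : ∀ z ∈ (univ.filter (fun z : Fin n × Bool => z.1 ∈ Y)).erase a,
            (if z = a then CC M P l t.length else CC M P l (t.length + 2)) =
              CC M P l (t.length + 2) := fun z hz => if_neg (mem_erase.1 hz).1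
        rw [sum_congr rfl h8, sum_const, card_erase_of_mem ha, ← hP, smul_eq_mul]
      rw [h7]
      rfl

theorem reduce_ofFn {k : ℕ} (g : RW n k) : FreeGroup.reduce (List.ofFn g.1) = List.ofFn g.1 := by
  apply FreeGroup.IsReduced.reduce_eq
  unfold FreeGroup.IsReduced
  rw [List.isChain_iff_getElem]
  intro i hi
  simp only [List.getElem_ofFn]
  intro h1
  by_contra h2
  rw [List.length_ofFn] at hi
  refine g.2 ⟨i, by omega⟩ ⟨i + 1, by omega⟩ rfl ?_
  unfold Pool.Agent.N993.WT.flip
  refine Prod.ext h1.symm ?_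
  show (g.1 ⟨i + 1, by omega⟩).2 = !(g.1 ⟨i, by omega⟩).2
  cases h3 : (g.1 ⟨i + 1, by omega⟩).2 <;> cases h4 : (g.1 ⟨i, by omega⟩).2 <;> simp_all

theorem t_unif : S_UNIF := by
  intro n ℓ k Y g g' hg hg'
  have h : ∀ g : RW n k, (∀ i, (g.1 i).1 ∈ Y) →
      Nat.card {u : Fin ℓ → Fin n × Bool // red Y (List.ofFn u) = List.ofFn g.1} =
        CC (univ.filter (fun z : Fin n × Bool => ¬ z.1 ∈ Y)).card
          (univ.filter (fun z : Fin n × Bool => z.1 ∈ Y)).card ℓ k := by
    intro g hg
    have h1 := cnt_eq Y ℓ (List.ofFn g.1) (reduce_ofFn g) (by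
      intro a ha
      rw [List.mem_ofFn] at ha
      obtain ⟨i, rfl⟩ := ha
      exact hg i)
    rw [List.length_ofFn] at h1
    rw [← h1, Nat.card_eq_fintype_card, Fintype.card_subtype]
    rfl
  rw [h g hg, h g' hg']

end Pool.Agent.N297.WX
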